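import Pool.Agent.Run7.h286.PL.StmC
import Pool.Agent.N615.JB.Alg

/-!
# Project PRL (helper286), piece K4: cohomologous cocycles have the same Kummer class
-/

set_option autoImplicit false
set_option linter.all false

open Polynomial IsDedekindDomain
open scoped Classical

namespace Run7.h760.PLC

open Pool.Agent.Y160.SE Pool.Agent.N352.JB Run7.h286.PLC
open Pool.Agent.TH115.GD (incl rs ak)

theorem k4 : P_K4 := by
  intro K Ω _ _ _ _ _ f hg hirr c c' h h' b b' R htor htor' hb hb' hR hc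
  have H : Hyps := hyps
  have hmap : ∀ (σ : Ω ≃ₐ[K] Ω) (e : Ω), Rt f e → Rt f (σ e) := fun σ e he => he.map (ak σ)
  have hsq : ∀ (e : Ω) (x : Jac 2 f Ω), Rt f e → Tor hg x → chi hg e x ^ 2 = 1 :=
    fun e x he hx => chi_pow H hg hx he
  obtain ⟨s, hs⟩ := Pool.Agent.N615.JB.lag K Ω f hg.sep (fun e => b e * b' e * chi hg e R) (by
    intro σ e he
    have hσe := hmap σ e he
    have h1 : c σ + R = c' σ + jm 2 f (ak σ) R := by rw [hc σ]; abel
    have h2 := congrArg (chi hg (σ e)) h1
    rw [chi_add H hg (htor _) hR hσe, chi_add H hg (htor' _) (hR.map _) hσe] at h2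
    have h6 := chi_map H hg hR he (ak σ)
    rw [chi_fix' H hg hR he] at h6
    have h7 : (ak σ) e = σ e := rfl
    rw [h7] at h6
    rw [h6] at h2
    have h8 : σ (chi hg e R) = chi hg e R := chi_fix' H hg hR he (ak σ)
    have q1 := hsq (σ e) (c σ) hσe (htor σ)
    have q2 := hsq (σ e) (c' σ) hσe (htor' σ)
    have q3 := hsq (σ e) R hσe hR
    have q4 := hsq e R he hR
    show σ (b e * b' e * chi hg e R) = b (σ e) * b' (σ e) * chi hg (σ e) R
    rw [map_mul, map_mul, hb.gal σ e he, hb'.gal σ e he, h8]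
    have e5 : chi hg (σ e) (c σ) * chi hg (σ e) (c' σ) * chi hg e R = chi hg (σ e) R := by
      linear_combination (-(chi hg (σ e) (c σ))) * h2 + (chi hg (σ e) R) * q1
    linear_combination (b (σ e) * b' (σ e)) * e5)
  refine ⟨s, ?_⟩
  obtain ⟨a, ha⟩ := exists_rt hg Ω
  have h0 : aeval a f = 0 := ha
  rw [minpoly.eq_of_irreducible_of_monic hirr h0 hg.monic]
  apply minpoly.dvd
  rw [map_sub, map_mul, map_pow, hs a ha, ← (hb.val a ha).2, ← (hb'.val a ha).2]
  have q4 := hsq a R ha hR
  linear_combination (-(b a ^ 2 * b' a ^ 2)) * q4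

end Run7.h760.PLC
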